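import Mathlib

namespace Pool.Agent.Results.MP_9a7beb_co.Fails

def OuterConnDom {W : Type} (H : SimpleGraph W) (D : Set W) : Prop :=
  (∀ v, v ∉ D → ∃ u ∈ D, H.Adj v u) ∧ (H.induce Dᶜ).Preconnected

noncomputable def gammaC {W : Type} (H : SimpleGraph W) : ℕ :=
  sInf {k | ∃ D : Set W, OuterConnDom H D ∧ D.ncard = k}

def midAdj {V : Type} (G : SimpleGraph V) : V ⊕ G.edgeSet → V ⊕ G.edgeSet → Prop
  | Sum.inl _, Sum.inl _ => False
  | Sum.inl v, Sum.inr e => v ∈ (e : Sym2 V)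
  | Sum.inr e, Sum.inl v => v ∈ (e : Sym2 V)
  | Sum.inr e, Sum.inr f => G.lineGraph.Adj e f

def middle {V : Type} (G : SimpleGraph V) : SimpleGraph (V ⊕ G.edgeSet) where
  Adj := midAdj G
  symm := ⟨by
    rintro (a | a) (b | b) h
    · exact h
    · exact h
    · exact h
    · exact G.lineGraph.adj_symm h⟩
  loopless := ⟨by
    rintro (a | a) h
    · exact h
    · exact G.lineGraph.irrefl h⟩

def w (v : Fin 10) : ℕ := if v.val < 4 then 0 else if v.val = 4 then 1 else if v.val = 5 then 2 else 3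

def adj (a b : Fin 10) : Bool :=
  decide (a ≠ b) && (decide (w a = w b) || decide (a.val + 1 = b.val) || decide (b.val + 1 = a.val))

def K : SimpleGraph (Fin 10) where
  Adj a b := adj a b = true
  symm := ⟨by decide⟩
  loopless := ⟨by decide⟩

instance : DecidableRel K.Adj := fun a b => inferInstanceAs (Decidable (adj a b = true))

instance : DecidableRel K.lineGraph.Adj := fun _ _ =>
  decidable_of_iff _ SimpleGraph.lineGraph_adj_iff_exists.symm

instance : DecidableRel (middle K).Adj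
  | Sum.inl _, Sum.inl _ => inferInstanceAs (Decidable False)
  | Sum.inl v, Sum.inr e => inferInstanceAs (Decidable (v ∈ (e : Sym2 (Fin 10))))
  | Sum.inr e, Sum.inl v => inferInstanceAs (Decidable (v ∈ (e : Sym2 (Fin 10))))
  | Sum.inr e, Sum.inr f => inferInstanceAs (Decidable (K.lineGraph.Adj e f))

def pos (e : K.edgeSet) : ℕ := Sym2.lift ⟨fun a b => w a + w b, fun _ _ => add_comm _ _⟩ e.1

def tot (e : K.edgeSet) : ℕ := Sym2.lift ⟨fun a b => a.val + b.val, fun _ _ => add_comm _ _⟩ e.1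

def rk : Fin 10 ⊕ K.edgeSet → ℕ
  | Sum.inl _ => 100
  | Sum.inr e => tot e

def inD : Fin 10 ⊕ K.edgeSet → Bool
  | Sum.inl v => decide (v = 4 ∨ v = 5)
  | Sum.inr e => decide (tot e = 1 ∨ tot e = 5 ∨ tot e = 13 ∨ tot e = 17)

def base : Fin 10 ⊕ K.edgeSet := Sum.inr ⟨s(0, 2), by decide⟩

lemma precon {W : Type} (H : SimpleGraph W) (S : Set W) (b : W) (hb : b ∈ S) (r : W → ℕ)
    (h : ∀ v ∈ S, v ≠ b → ∃ u ∈ S, H.Adj v u ∧ r u < r v) : (H.induce S).Preconnected := by
  have key : ∀ k, ∀ v : S, r v < k → (H.induce S).Reachable v ⟨b, hb⟩ := by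
    intro k
    induction k with
    | zero => intro v hv; omega
    | succ k ih =>
      intro v hv
      by_cases e : v.1 = b
      · rw [show v = ⟨b, hb⟩ from Subtype.ext e]
      · obtain ⟨u, hu, h1, h2⟩ := h v v.2 e
        have a : (H.induce S).Adj v ⟨u, hu⟩ := h1
        exact a.reachable.trans (ih ⟨u, hu⟩ (by simp only; omega))
  exact fun u v => (key _ u (Nat.lt_succ_self _)).trans (key _ v (Nat.lt_succ_self _)).symm

lemma f1 : ∀ v, inD v = false → ∃ u, inD u = true ∧ (middle K).Adj v u := by decide +kernel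

lemma f2 : ∀ v, inD v = false → v ≠ base →
    ∃ u, inD u = false ∧ (middle K).Adj v u ∧ rk u < rk v := by decide +kernel

lemma f3 : (Finset.univ.filter fun v => inD v = true).card = 6 := by decide +kernel

lemma upper : gammaC (middle K) ≤ 6 := by
  apply Nat.sInf_le
  refine ⟨{v | inD v = true}, ⟨?_, ?_⟩, ?_⟩
  · intro v hv
    exact f1 v (by simpa using hv)
  · apply precon _ _ base (by show ¬ inD base = true; decide) rk
    intro v hv hb
    obtain ⟨u, h1, h2⟩ := f2 v (by simpa using hv) hb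
    exact ⟨u, by simpa using h1, h2⟩
  · rw [← f3, ← Set.ncard_coe_finset]
    congr 1
    ext v
    simp

def mid : K.edgeSet := ⟨s(4, 5), by decide⟩

lemma g1 : ∀ e, (e = mid ∨ K.lineGraph.Adj mid e) → pos e = 1 ∨ pos e = 3 ∨ pos e = 5 := by
  decide +kernel

lemma g2 : ∀ c, (pos c = 1 ∨ pos c = 3 ∨ pos c = 5) → ∀ e, pos e < pos c →
    ∀ f, K.lineGraph.Adj e f → f = c ∨ pos f < pos c := by decide +kernel

lemma g3 : ∀ c, (pos c = 1 ∨ pos c = 3 ∨ pos c = 5) → ∀ q ∈ ({0, 6} : Finset ℕ),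
    (Finset.univ.filter fun e => e = c ∨ pos e = q).card = 7 := by decide +kernel

lemma lower (D : Set K.edgeSet) (h : OuterConnDom K.lineGraph D) : 7 ≤ D.ncard := by
  obtain ⟨c, hc, hp⟩ : ∃ c ∈ D, pos c = 1 ∨ pos c = 3 ∨ pos c = 5 := by
    by_cases hm : mid ∈ D
    · exact ⟨mid, hm, g1 _ (Or.inl rfl)⟩
    · obtain ⟨u, hu, ha⟩ := h.1 mid hm
      exact ⟨u, hu, g1 _ (Or.inr ha)⟩
  have walk : ∀ e f : (Dᶜ : Set K.edgeSet), (K.lineGraph.induce Dᶜ).Reachable e f →
      pos e < pos c → pos f < pos c := by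
    rintro e f ⟨p⟩
    induction p with
    | nil => exact id
    | @cons a b _ hab _ ih =>
      exact fun ha => ih ((g2 c hp a ha b hab).resolve_left (fun hb => b.2 (hb ▸ hc)))
  obtain ⟨q, hq, hD⟩ : ∃ q ∈ ({0, 6} : Finset ℕ), ∀ e, pos e = q → e ∈ D := by
    by_contra hn
    push Not at hn
    obtain ⟨e, he, he'⟩ := hn 0 (by decide)
    obtain ⟨f, hf, hf'⟩ := hn 6 (by decide)
    have := walk ⟨e, he'⟩ ⟨f, hf'⟩ (h.2 _ _) (by simp only; omega)
    simp only at this
    omega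
  rw [← g3 c hp q hq, ← Set.ncard_coe_finset]
  apply Set.ncard_le_ncard _ (Set.toFinite D)
  intro e he
  rcases (Finset.mem_filter.mp he).2 with rfl | h1
  · exact hc
  · exact hD e h1

theorem result : ¬ ∀ (n : ℕ) (G : SimpleGraph (Fin n)), 2 ≤ n →
    gammaC G.lineGraph ≤ gammaC (middle G) := by
  intro h
  have h1 := h 10 K (by norm_num)
  have h2 := upper
  have h3 : 7 ≤ gammaC K.lineGraph := by
    apply le_csInf
    · refine ⟨_, Set.univ, ⟨fun v hv => absurd (Set.mem_univ v) hv, ?_⟩, rfl⟩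
      intro u
      exact absurd (Set.mem_univ u.1) u.2
    · rintro k ⟨D, hD, rfl⟩
      exact lower D hD
  omega

end Pool.Agent.Results.MP_9a7beb_co.Fails
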